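import Pool.Agent.W192.CM.Parts2
import Pool.Agent.W822.CM.Dualp

/-!
# CMW-DUALP: the dual part with a general weight function (adapted from
`Pool.Agent.W822.CM.Dualp`, by helper215)
-/

set_option autoImplicit false

open Complex Filter Topology Set

namespace Pool.Agent.W215.CM.Dualp

open Pool.Agent.W192.CM Pool.Agent.W192.CY Pool.Agent.W822.CM.Dualp

theorem d_dualp (h0 : S_DIV) (h1 : C_BASIC) (_h2 : C_LAT) (h3 : C_MOB) (h4 : C_GAVG) :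
    D_DUALP := by
  classical
  intro V CV hV R ω hR m g hm hg c0 hc0 ε hε hε'
  have hCV := hV.pos
  obtain ⟨-, -, -, -, hcard⟩ := h1 R ω hR
  obtain ⟨C1, hC1, hC, -⟩ := h0 (ε / 8) (by linarith)
  set s : ℝ := 1 / 2 + ε / 8 with hs
  have hs0 : 0 ≤ s := by rw [hs]; linarith
  have hs1 : s ≤ 1 := by rw [hs]; linarith
  have hsum : Summable (fun α : R => ‖(α : ℂ)‖ ^ (-(1 + 2 * s))) := summ hR (by rw [hs]; linarith)
  set S : ℝ := ∑' α : R, ‖(α : ℂ)‖ ^ (-(1 + 2 * s)) with hS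
  have hS0 : 0 ≤ S := tsum_nonneg fun α => Real.rpow_nonneg (norm_nonneg _) _
  refine ⟨ε / 2, C1 * (CV * (2 * c0) ^ s) * S ^ 2 + 1, 0, by linarith, by positivity, ?_⟩
  intro κ φ _ hκ _ _ χ₀ hord M hM hMd
  obtain ⟨-, hcA⟩ := hcard κ hκ
  set N : ℝ := Complex.normSq (κ : ℂ) with hN
  have hN1 : 1 ≤ N := by
    rw [← hcA]
    exact_mod_cast Nat.card_pos
  have hN0 : 0 < N := by linarith
  have hκn : ‖(κ : ℂ)‖ = N ^ (1 / 2 : ℝ) := by
    rw [hN, Complex.normSq_eq_norm_sq, ← Real.sqrt_eq_rpow, Real.sqrt_sq (norm_nonneg _)]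
  have hcU : (Nat.card (Aq R κ)ˣ : ℝ) ≤ N := by
    rw [← hcA]
    exact_mod_cast Nat.card_le_card_of_injective _ Units.val_injective
  have hpow : orderOf χ₀ ∣ Nat.card (Aq R κ)ˣ := by
    let _ : Fintype (Aq R κ)ˣ := Fintype.ofFinite _
    rw [Nat.card_eq_fintype_card]
    exact orderOf_dvd_of_pow_eq_one χ₀.pow_card_eq_one
  have hd1 : 1 ≤ orderOf χ₀ := Nat.pos_of_dvd_of_pos hpow Nat.card_pos
  have hdN : (orderOf χ₀ : ℝ) ≤ N :=
    le_trans (by exact_mod_cast Nat.le_of_dvd Nat.card_pos hpow) hcU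
  have hτ : ((orderOf χ₀).divisors.card : ℝ) ≤ C1 * N ^ (ε / 8) := by
    refine (hC _ hd1).trans (mul_le_mul_of_nonneg_left ?_ hC1.le)
    exact Real.rpow_le_rpow (Nat.cast_nonneg _) hdN (by linarith)
  set K0 : ℝ := (orderOf χ₀).divisors.card * (Nat.card (Aq R κ)ˣ : ℝ) / ‖(κ : ℂ)‖ with hK0
  have hK0' : K0 ≤ C1 * N ^ (1 / 2 + ε / 8) := by
    rw [hK0, hκn, div_le_iff₀ (Real.rpow_pos_of_pos hN0 _)]
    calc ((orderOf χ₀).divisors.card : ℝ) * (Nat.card (Aq R κ)ˣ : ℝ)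
        ≤ (C1 * N ^ (ε / 8)) * N := mul_le_mul hτ hcU (Nat.cast_nonneg _) (by positivity)
      _ = C1 * (N ^ (ε / 8) * N ^ (1 : ℝ)) := by rw [Real.rpow_one]; ring
      _ = C1 * N ^ (1 / 2 + ε / 8) * N ^ (1 / 2 : ℝ) := by
          rw [mul_assoc, ← Real.rpow_add hN0, ← Real.rpow_add hN0]
          congr 2
          ring
  have hK00 : 0 ≤ K0 := by rw [hK0]; positivity
  set B : ℝ := N ^ (ε / 2) with hB
  set Y : ℝ := c0 * N ^ (1 / 3 : ℝ) with hY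
  have hY0 : 0 < Y := by rw [hY]; positivity
  -- coefficients
  set b : R → ℂ := fun β => if Complex.normSq (β : ℂ) ≤ B then
    ((m β : ℂ) * g β) / (Complex.normSq (β : ℂ) : ℂ) else 0 with hb
  set a : R → ℂ := fun α => (starRingEnd ℂ) (g α / (Complex.normSq (α : ℂ) : ℂ) *
    (V (Complex.normSq (α : ℂ) / Y) : ℂ)) with ha
  have hbb : ∀ β, ‖b β‖ ≤ B ^ s * ‖(β : ℂ)‖ ^ (-(1 + 2 * s)) := by
    intro β
    have hnn : 0 ≤ B ^ s * ‖(β : ℂ)‖ ^ (-(1 + 2 * s)) := by positivity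
    rw [hb]
    show ‖if Complex.normSq (β : ℂ) ≤ B then
      ((m β : ℂ) * g β) / (Complex.normSq (β : ℂ) : ℂ) else 0‖ ≤ _
    split_ifs with h
    · by_cases h0 : (β : ℂ) = 0
      · rw [h0] at hnn ⊢
        rw [map_zero, Complex.ofReal_zero, div_zero]
        exact norm_zero.trans_le hnn
      · have hp : 0 < ‖(β : ℂ)‖ := norm_pos_iff.2 h0
        rw [mul_div_assoc, norm_mul, Complex.norm_real, Real.norm_eq_abs]
        calc _ ≤ 1 * ‖(β : ℂ)‖ ^ (-1 : ℝ) :=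
              mul_le_mul (hm.le β) (gcoef hg β) (norm_nonneg _) zero_le_one
          _ = ‖(β : ℂ)‖ ^ (-1 : ℝ) := one_mul _
          _ ≤ _ := pow_le_of hp hs0 (by rw [← Complex.normSq_eq_norm_sq]; exact h)
    · rw [norm_zero]; exact hnn
  have hab : ∀ α, ‖a α‖ ≤ (CV * (2 * Y) ^ s) * ‖(α : ℂ)‖ ^ (-(1 + 2 * s)) := by
    intro α
    have hnn : 0 ≤ (CV * (2 * Y) ^ s) * ‖(α : ℂ)‖ ^ (-(1 + 2 * s)) := by positivity
    rw [ha]
    show ‖(starRingEnd ℂ) (g α / (Complex.normSq (α : ℂ) : ℂ) *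
      (V (Complex.normSq (α : ℂ) / Y) : ℂ))‖ ≤ _
    rw [RCLike.norm_conj, norm_mul, Complex.norm_real, Real.norm_eq_abs]
    by_cases h0 : (α : ℂ) = 0
    · have : α = 0 := Subtype.ext h0
      rw [this, hg.zero, zero_div, norm_zero, zero_mul]
      rw [this] at hnn
      exact hnn
    · have hp : 0 < ‖(α : ℂ)‖ := norm_pos_iff.2 h0
      have hx : 0 ≤ Complex.normSq (α : ℂ) / Y := div_nonneg (Complex.normSq_nonneg _) hY0.le
      refine (mul_le_mul (gcoef hg α) (hV.dec _ hx) (abs_nonneg _)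
        (Real.rpow_nonneg (norm_nonneg _) _)).trans ?_
      have e1 : Complex.normSq (α : ℂ) / Y / 2 = ‖(α : ℂ)‖ ^ 2 / (2 * Y) := by
        rw [Complex.normSq_eq_norm_sq]; field_simp
      rw [e1]
      have e2 := mul_le_mul_of_nonneg_left (exp_le_of hp (by positivity : (0 : ℝ) < 2 * Y) hs0 hs1)
        hCV.le
      calc _ = CV * (‖(α : ℂ)‖ ^ (-1 : ℝ) * Real.exp (-(‖(α : ℂ)‖ ^ 2 / (2 * Y)))) := by ring
        _ ≤ _ := e2
        _ = _ := by ring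
  have hbs : Summable (fun β => ‖b β‖) :=
    Summable.of_nonneg_of_le (fun _ => norm_nonneg _) hbb (hsum.mul_left _)
  have has : Summable (fun α => ‖a α‖) :=
    Summable.of_nonneg_of_le (fun _ => norm_nonneg _) hab (hsum.mul_left _)
  have hbt : ∑' β, ‖b β‖ ≤ B ^ s * S := by
    rw [hS, ← tsum_mul_left]
    exact hbs.tsum_le_tsum hbb (hsum.mul_left _)
  have hat : ∑' α, ‖a α‖ ≤ (CV * (2 * Y) ^ s) * S := by
    rw [hS, ← tsum_mul_left]
    exact has.tsum_le_tsum hab (hsum.mul_left _)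
  -- rewriting
  have emol : ∀ χ : MulChar (Aq R κ) ℂ, mol m g B χ = (1 / (nu R : ℂ)) * ∑' β : R, ev χ β * b β := by
    intro χ
    unfold mol
    congr 1
    refine tsum_congr fun β => ?_
    rw [hb]
    show (if Complex.normSq (β : ℂ) ≤ B then
      ev χ β * ((m β : ℂ) * g β) / (Complex.normSq (β : ℂ) : ℂ) else 0) = ev χ β *
      (if Complex.normSq (β : ℂ) ≤ B then ((m β : ℂ) * g β) / (Complex.normSq (β : ℂ) : ℂ) else 0)
    split_ifs
    · rw [mul_div_assoc]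
    · rw [mul_zero]
  have esmo : ∀ χ : MulChar (Aq R κ) ℂ, (starRingEnd ℂ) (smov V g Y χ) =
      (1 / (nu R : ℂ)) * ∑' α : R, (starRingEnd ℂ) (ev χ α) * a α := by
    intro χ
    unfold smov
    rw [map_mul, Complex.conj_tsum, map_div₀, map_one, map_natCast]
    congr 1
    refine tsum_congr fun α => ?_
    rw [ha]
    show _ = (starRingEnd ℂ) (ev χ α) * (starRingEnd ℂ) (g α / (Complex.normSq (α : ℂ) : ℂ) *
      (V (Complex.normSq (α : ℂ) / Y) : ℂ))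
    rw [← map_mul]
    congr 1
    ring
  have etot : ∑ χ ∈ Ef χ₀ M, mol m g B χ * (ev χ φ * gs ω κ χ / (‖(κ : ℂ)‖ : ℂ)) *
      (starRingEnd ℂ) (smov V g Y χ) = (1 / (nu R : ℂ)) * ((1 / (nu R : ℂ)) *
      ∑ χ ∈ Ef χ₀ M, (∑' β : R, ev χ β * b β) * ((ev χ φ * gs ω κ χ / (‖(κ : ℂ)‖ : ℂ)) *
        ∑' α : R, (starRingEnd ℂ) (ev χ α) * a α)) := by
    rw [Finset.mul_sum, Finset.mul_sum]
    refine Finset.sum_congr rfl fun χ _ => ?_
    rw [emol, esmo]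
    ring
  have hin : ∀ β : R, ‖∑ χ ∈ Ef χ₀ M, ev χ β * ((ev χ φ * gs ω κ χ / (‖(κ : ℂ)‖ : ℂ)) *
        ∑' α : R, (starRingEnd ℂ) (ev χ α) * a α)‖ ≤ K0 * ∑' α, ‖a α‖ := by
    intro β
    have e : ∑ χ ∈ Ef χ₀ M, ev χ β * ((ev χ φ * gs ω κ χ / (‖(κ : ℂ)‖ : ℂ)) *
        ∑' α : R, (starRingEnd ℂ) (ev χ α) * a α) = ∑ χ ∈ Ef χ₀ M,
        (∑' α : R, (starRingEnd ℂ) (ev χ α) * a α) *
          (ev χ β * (ev χ φ * gs ω κ χ / (‖(κ : ℂ)‖ : ℂ))) := by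
      refine Finset.sum_congr rfl fun χ _ => ?_
      ring
    rw [e]
    refine avg (Ef χ₀ M) (fun χ α => (starRingEnd ℂ) (ev χ α)) (fun χ α => ?_) a has _ K0
      (fun α => ?_)
    · rw [RCLike.norm_conj]; exact ev_norm χ α
    · have e2 : ∑ χ ∈ Ef χ₀ M, (starRingEnd ℂ) (ev χ α) *
          (ev χ β * (ev χ φ * gs ω κ χ / (‖(κ : ℂ)‖ : ℂ))) = ∑ χ ∈ Ef χ₀ M, ev χ β *
          ((starRingEnd ℂ) (ev χ α) * (ev χ φ * gs ω κ χ / (‖(κ : ℂ)‖ : ℂ))) := by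
        refine Finset.sum_congr rfl fun χ _ => ?_
        ring
      rw [e2]
      exact key h3 h4 ω χ₀ M hM hMd φ β α
  have hout := avg (Ef χ₀ M) (fun χ β => ev χ β) (fun χ β => ev_norm χ β) b hbs
    (fun χ => (ev χ φ * gs ω κ χ / (‖(κ : ℂ)‖ : ℂ)) *
        ∑' α : R, (starRingEnd ℂ) (ev χ α) * a α) (K0 * ∑' α, ‖a α‖) hin
  have hfin : ‖∑ χ ∈ Ef χ₀ M, (∑' β : R, ev χ β * b β) *
      ((ev χ φ * gs ω κ χ / (‖(κ : ℂ)‖ : ℂ)) *
        ∑' α : R, (starRingEnd ℂ) (ev χ α) * a α)‖ ≤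
      (C1 * (CV * (2 * c0) ^ s) * S ^ 2) * N ^ (2 / 3 + ε / 2) := by
    refine hout.trans ?_
    have hA0 : 0 ≤ ∑' α, ‖a α‖ := tsum_nonneg fun _ => norm_nonneg _
    have hB0 : 0 ≤ ∑' β, ‖b β‖ := tsum_nonneg fun _ => norm_nonneg _
    calc K0 * (∑' α, ‖a α‖) * ∑' β, ‖b β‖
        ≤ (C1 * N ^ (1 / 2 + ε / 8)) * ((CV * (2 * Y) ^ s) * S) * (B ^ s * S) := by
          gcongr
      _ = C1 * (CV * (2 * c0) ^ s) * S ^ 2 *
          (N ^ (1 / 2 + ε / 8) * N ^ (1 / 3 * s) * N ^ (ε / 2 * s)) := by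
          rw [hY, hB, ← mul_assoc 2 c0, Real.mul_rpow (by positivity) (by positivity),
            ← Real.rpow_mul hN0.le, ← Real.rpow_mul hN0.le]
          ring
      _ = C1 * (CV * (2 * c0) ^ s) * S ^ 2 * N ^ (1 / 2 + ε / 8 + 1 / 3 * s + ε / 2 * s) := by
          rw [← Real.rpow_add hN0, ← Real.rpow_add hN0]
      _ ≤ _ := by
          refine mul_le_mul_of_nonneg_left ?_ (by positivity)
          refine Real.rpow_le_rpow_of_exponent_le hN1 ?_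
          rw [hs]
          nlinarith
  have hfin2 : (C1 * (CV * (2 * c0) ^ s) * S ^ 2) * N ^ (2 / 3 + ε / 2) ≤
      (C1 * (CV * (2 * c0) ^ s) * S ^ 2 + 1) * orderOf χ₀ * N ^ (-(ε / 2)) := by
    calc (C1 * (CV * (2 * c0) ^ s) * S ^ 2) * N ^ (2 / 3 + ε / 2)
        = (C1 * (CV * (2 * c0) ^ s) * S ^ 2) * (N ^ (2 / 3 + ε) * N ^ (-(ε / 2))) := by
          rw [← Real.rpow_add hN0]
          congr 2
          ring
      _ ≤ (C1 * (CV * (2 * c0) ^ s) * S ^ 2 + 1) * (orderOf χ₀ * N ^ (-(ε / 2))) := by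
          gcongr
          linarith
      _ = _ := by ring
  rw [etot, norm_mul, norm_mul]
  calc ‖(1 / (nu R : ℂ))‖ * (‖(1 / (nu R : ℂ))‖ * _) ≤ 1 * (1 * _) := by
        refine mul_le_mul (one_div_le _) (mul_le_mul_of_nonneg_right (one_div_le _)
          (norm_nonneg _)) (by positivity) zero_le_one
    _ = _ := by rw [one_mul, one_mul]
    _ ≤ _ := hfin.trans hfin2

end Pool.Agent.W215.CM.Dualp
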